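import Mathlib

/-! Odd induced subgraphs of cographs: definitions. -/

set_option autoImplicit false

namespace Pool.Agent.K4H56.CG

open Finset

open Classical in
/-- The number of neighbours of `v` in the set `S`; for `v ∈ S` this is the degree of `v` in the
subgraph induced by `S`. -/
noncomputable def degIn {V : Type*} (G : SimpleGraph V) (S : Finset V) (v : V) : ℕ :=
  (S.filter (fun w => G.Adj v w)).card

/-- The subgraph induced by `S` is odd: all its degrees are odd. -/
def IsOddSet {V : Type*} (G : SimpleGraph V) (S : Finset V) : Prop :=
  ∀ v ∈ S, Odd (degIn G S v)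

/-- `mos G`: the largest number of vertices of an odd induced subgraph of the finite graph `G`. -/
noncomputable def mos {V : Type*} (G : SimpleGraph V) : ℕ :=
  sSup {k : ℕ | ∃ S : Finset V, IsOddSet G S ∧ S.card = k}

/-- `G` is a cograph: it has no induced path on four vertices. -/
def IsCograph {V : Type*} (G : SimpleGraph V) : Prop :=
  IsEmpty (SimpleGraph.pathGraph 4 ↪g G)

/-- `G` has no isolated vertex. -/
def NoIsolated {V : Type*} (G : SimpleGraph V) : Prop := ∀ v, ∃ w, G.Adj v w

end Pool.Agent.K4H56.CG
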