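import Pool.Agent.K4H56.CG.Defs

/-! Lower bounds for odd induced subgraphs. -/

set_option autoImplicit false

namespace Pool.Agent.K4H56.CG

open Finset

variable {V : Type*}

/-- the diagonal of a symmetric matrix over the field with two elements is in its image -/
theorem diag_mem_range [Fintype V] [DecidableEq V] (M : V → V → ZMod 2) (hM : ∀ u v, M u v = M v u) :
    ∃ y : V → ZMod 2, ∀ u, ∑ v, M u v * y v = M u u := by
  let T : (V → ZMod 2) →ₗ[ZMod 2] (V → ZMod 2) :=
    { toFun := fun y u => ∑ v, M u v * y v
      map_add' := fun x y => by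
        funext u
        simp [mul_add, Finset.sum_add_distrib]
      map_smul' := fun c x => by
        funext u
        simp only [Pi.smul_apply, smul_eq_mul, RingHom.id_apply, Finset.mul_sum]
        exact Finset.sum_congr rfl fun v _ => by ring }
  by_cases h : (fun u => M u u) ∈ LinearMap.range T
  · obtain ⟨y, hy⟩ := h
    exact ⟨y, fun u => congrFun hy u⟩
  · exfalso
    obtain ⟨f, hf, hT⟩ := Submodule.exists_dual_map_eq_bot_of_notMem h inferInstance
    set z : V → ZMod 2 := fun v => f (fun j => if v = j then 1 else 0) with hz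
    have hfz : ∀ x : V → ZMod 2, f x = ∑ v, x v * z v := by
      intro x
      rw [LinearMap.pi_apply_eq_sum_univ f x]
      rfl
    have hker : ∀ x : V → ZMod 2, f (T x) = 0 := by
      intro x
      have h1 : f (T x) ∈ Submodule.map f (LinearMap.range T) := ⟨T x, ⟨x, rfl⟩, rfl⟩
      rw [hT] at h1
      simpa using h1
    have h1 := hker z
    rw [hfz] at h1
    apply hf
    rw [hfz]
    have h2 : ∑ v, (T z) v * z v = ∑ p : V × V, M p.1 p.2 * z p.1 * z p.2 := by
      rw [Fintype.sum_prod_type]
      refine Finset.sum_congr rfl fun u _ => ?_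
      change (∑ v, M u v * z v) * z u = _
      rw [Finset.sum_mul]
      exact Finset.sum_congr rfl fun v _ => by ring
    rw [h2] at h1
    have h3 : ∑ p : V × V, M p.1 p.2 * z p.1 * z p.2 =
        (∑ p ∈ univ.filter (fun p : V × V => p.1 = p.2), M p.1 p.2 * z p.1 * z p.2) +
        ∑ p ∈ univ.filter (fun p : V × V => ¬ p.1 = p.2), M p.1 p.2 * z p.1 * z p.2 :=
      (Finset.sum_filter_add_sum_filter_not _ _ _).symm
    have h4 : ∑ p ∈ univ.filter (fun p : V × V => ¬ p.1 = p.2), M p.1 p.2 * z p.1 * z p.2 = 0 := by
      refine Finset.sum_involution (fun p _ => (p.2, p.1)) ?_ ?_ ?_ ?_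
      · intro p _
        have : M p.2 p.1 = M p.1 p.2 := hM _ _
        simp only [this]
        have h2 : M p.1 p.2 * z p.2 * z p.1 = M p.1 p.2 * z p.1 * z p.2 := by ring
        rw [h2]
        exact CharTwo.add_self_eq_zero _
      · intro p hp _ h
        rw [Finset.mem_filter] at hp
        exact hp.2 (congrArg Prod.snd h)
      · intro p hp
        rw [Finset.mem_filter] at hp ⊢
        exact ⟨Finset.mem_univ _, fun h => hp.2 h.symm⟩
      · intro p _
        rfl
    have h5 : ∑ p ∈ univ.filter (fun p : V × V => p.1 = p.2), M p.1 p.2 * z p.1 * z p.2 =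
        ∑ v, M v v * z v := by
      refine Finset.sum_bij' (fun p _ => p.1) (fun v _ => (v, v)) ?_ ?_ ?_ ?_ ?_
      · intro p _; exact Finset.mem_univ _
      · intro v _; simp
      · intro p hp
        rw [Finset.mem_filter] at hp
        exact Prod.ext rfl hp.2
      · intro v _; rfl
      · intro p hp
        rw [Finset.mem_filter] at hp
        rw [← hp.2]
        have : ∀ a : ZMod 2, a * a = a := by decide
        rw [mul_assoc, this]
    rw [h3, h4, h5, add_zero] at h1
    exact h1

open Classical in
/-- Gallai: every set of vertices has a partition into a set inducing an odd graph and a set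
inducing an even graph. -/
theorem gallai [Fintype V] (G : SimpleGraph V) (A : Finset V) :
    ∃ O ⊆ A, IsOddSet G O ∧ ∀ v ∈ A \ O, Even (degIn G (A \ O) v) := by
  set a : V → V → ZMod 2 := fun u v => if u ∈ A ∧ v ∈ A ∧ G.Adj u v then 1 else 0 with ha
  set d : V → ZMod 2 := fun u => ∑ v, a u v + 1 with hd
  have hsym : ∀ u v, a u v = a v u := by
    intro u v
    simp only [ha]
    congr 1
    rw [G.adj_comm]
    apply propext
    tauto
  obtain ⟨y, hy⟩ := diag_mem_range (fun u v => a u v + if u = v then d u else 0) (by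
    intro u v
    rw [hsym u v]
    by_cases h : u = v
    · subst h; rfl
    · rw [if_neg h, if_neg (Ne.symm h)])
  have haa : ∀ u, a u u = 0 := by
    intro u
    simp [ha]
  have hy' : ∀ u, ∑ v, a u v * y v + d u * y u = d u := by
    intro u
    have h1 := hy u
    simp only [haa, if_true, zero_add] at h1
    refine Eq.trans ?_ h1
    simp only [add_mul, Finset.sum_add_distrib, ite_mul, zero_mul, Finset.sum_ite_eq,
      Finset.mem_univ, if_true]
  have h01 : ∀ v, y v = 0 ∨ y v = 1 := by
    intro v
    have : ∀ b : ZMod 2, b = 0 ∨ b = 1 := by decide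
    exact this _
  set O := A.filter (fun v => y v = 0) with hO
  have hE : A \ O = A.filter (fun v => y v = 1) := by
    ext v
    simp only [hO, Finset.mem_sdiff, Finset.mem_filter, not_and]
    constructor
    · rintro ⟨h1, h2⟩
      exact ⟨h1, (h01 v).resolve_left (h2 h1)⟩
    · rintro ⟨h1, h2⟩
      refine ⟨h1, fun _ h3 => ?_⟩
      rw [h2] at h3
      exact one_ne_zero h3
  -- the count of neighbours in the even part
  have hcE : ∀ u ∈ A, ∑ v, a u v * y v = (degIn G (A \ O) u : ZMod 2) := by
    intro u hu
    have : ((degIn G (A \ O) u : ℕ) : ZMod 2) =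
        ∑ v ∈ (A \ O).filter (fun w => G.Adj u w), (1 : ZMod 2) := by
      rw [Finset.sum_const, nsmul_eq_mul, mul_one]; rfl
    rw [this, hE, Finset.filter_filter, Finset.sum_filter]
    have h2 : ∑ v, a u v * y v = ∑ v ∈ A, a u v * y v := by
      symm
      refine Finset.sum_subset (Finset.subset_univ A) fun v _ hv => ?_
      simp [ha, hv]
    rw [h2]
    refine Finset.sum_congr rfl fun v hv => ?_
    rcases h01 v with h | h <;> simp [ha, hu, hv, h]
  have hcA : ∀ u ∈ A, ∑ v, a u v = (degIn G A u : ZMod 2) := by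
    intro u hu
    have : ((degIn G A u : ℕ) : ZMod 2) = ∑ v ∈ A.filter (fun w => G.Adj u w), (1 : ZMod 2) := by
      rw [Finset.sum_const, nsmul_eq_mul, mul_one]; rfl
    rw [this, Finset.sum_filter]
    have h2 : ∑ v, a u v = ∑ v ∈ A, a u v := by
      symm
      refine Finset.sum_subset (Finset.subset_univ A) fun v _ hv => ?_
      simp [ha, hv]
    rw [h2]
    refine Finset.sum_congr rfl fun v hv => ?_
    simp [ha, hu, hv]
  have hsplit : ∀ u, degIn G A u = degIn G O u + degIn G (A \ O) u := by
    intro u
    unfold degIn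
    rw [← Finset.card_union_of_disjoint]
    · congr 1
      rw [← Finset.filter_union, Finset.union_sdiff_of_subset (Finset.filter_subset _ _)]
    · exact Finset.disjoint_filter_filter Finset.disjoint_sdiff
  refine ⟨O, Finset.filter_subset _ _, ?_, ?_⟩
  · intro u hu
    rw [hO, Finset.mem_filter] at hu
    have h1 := hy' u
    rw [hu.2, mul_zero, add_zero, hcE u hu.1] at h1
    simp only [hd] at h1
    rw [hcA u hu.1, hsplit u] at h1
    rw [← ZMod.natCast_eq_one_iff_odd]
    push_cast at h1
    have h2 : ∀ b c : ZMod 2, c = b + c + 1 → b = 1 := by decide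
    exact h2 _ _ h1
  · intro u hu
    have hu' := hu
    rw [hE, Finset.mem_filter] at hu'
    have h1 := hy' u
    rw [hu'.2, mul_one, hcE u hu'.1] at h1
    rw [← ZMod.natCast_eq_zero_iff_even]
    have h2 : ∀ b c : ZMod 2, b + c = c → b = 0 := by decide
    exact h2 _ _ h1

open Classical in
/-- an odd induced subgraph has an even number of vertices -/
theorem even_card [Fintype V] {G : SimpleGraph V} {S : Finset V} (h : IsOddSet G S) :
    Even S.card := by
  have h1 : Even (∑ v ∈ S, degIn G S v) := by
    have h2 : ∑ v ∈ S, degIn G S v = ((S ×ˢ S).filter (fun p => G.Adj p.1 p.2)).card := by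
      rw [Finset.card_filter, Finset.sum_product]
      refine Finset.sum_congr rfl fun v _ => ?_
      rw [degIn, Finset.card_filter]
    rw [h2]
    have h3 : (((S ×ˢ S).filter (fun p => G.Adj p.1 p.2)).card : ZMod 2) = 0 := by
      have : (((S ×ˢ S).filter (fun p => G.Adj p.1 p.2)).card : ZMod 2) =
          ∑ p ∈ (S ×ˢ S).filter (fun p => G.Adj p.1 p.2), (1 : ZMod 2) := by
        rw [Finset.sum_const, nsmul_eq_mul, mul_one]
      rw [this]
      refine Finset.sum_involution (fun p _ => (p.2, p.1)) ?_ ?_ ?_ ?_
      · intro p _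
        decide
      · intro p hp _ h
        rw [Finset.mem_filter] at hp
        have h4 : p.2 = p.1 := congrArg Prod.fst h
        exact G.ne_of_adj hp.2 h4.symm
      · intro p hp
        rw [Finset.mem_filter, Finset.mem_product] at hp ⊢
        exact ⟨⟨hp.1.2, hp.1.1⟩, hp.2.symm⟩
      · intro p _
        rfl
    exact (ZMod.natCast_eq_zero_iff_even).1 h3
  rw [← ZMod.natCast_eq_zero_iff_even] at h1 ⊢
  rw [← h1]
  push_cast
  rw [Finset.card_eq_sum_ones]
  push_cast
  refine Finset.sum_congr rfl fun v hv => ?_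
  exact ((ZMod.natCast_eq_one_iff_odd).2 (h v hv)).symm

open Classical in
theorem degIn_union (G : SimpleGraph V) {S T : Finset V} (h : Disjoint S T) (v : V) :
    degIn G (S ∪ T) v = degIn G S v + degIn G T v := by
  unfold degIn
  rw [Finset.filter_union, Finset.card_union_of_disjoint (Finset.disjoint_filter_filter h)]

open Classical in
theorem degIn_full (G : SimpleGraph V) {T : Finset V} {v : V} (h : ∀ w ∈ T, G.Adj v w) :
    degIn G T v = T.card := by
  unfold degIn
  rw [Finset.filter_true_of_mem h]

open Classical in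
theorem degIn_none (G : SimpleGraph V) {T : Finset V} {v : V} (h : ∀ w ∈ T, ¬ G.Adj v w) :
    degIn G T v = 0 := by
  unfold degIn
  rw [Finset.filter_false_of_mem h, Finset.card_empty]

open Classical in
/-- joins of two sets of odd size -/
theorem join_odd [Fintype V] (G : SimpleGraph V) (A B : Finset V)
    (hAB : ∀ u ∈ A, ∀ v ∈ B, G.Adj u v) (hA : Odd A.card) (hB : Odd B.card) :
    ∃ S ⊆ A ∪ B, IsOddSet G S ∧ A.card + B.card ≤ 2 * S.card := by
  have hdisj : Disjoint A B := by
    rw [Finset.disjoint_left]
    intro v h1 h2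
    exact G.irrefl (hAB v h1 v h2)
  obtain ⟨O1, hO1, o1, e1⟩ := gallai G A
  obtain ⟨O2, hO2, o2, e2⟩ := gallai G B
  have c1 := even_card o1
  have c2 := even_card o2
  have s1 : (A \ O1).card + O1.card = A.card := Finset.card_sdiff_add_card_eq_card hO1
  have s2 : (B \ O2).card + O2.card = B.card := Finset.card_sdiff_add_card_eq_card hO2
  have d1 : Disjoint O1 O2 := hdisj.mono hO1 hO2
  have d2 : Disjoint (A \ O1) (B \ O2) := hdisj.mono Finset.sdiff_subset Finset.sdiff_subset
  have t1 : (O1 ∪ O2).card = O1.card + O2.card := Finset.card_union_of_disjoint d1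
  have t2 : ((A \ O1) ∪ (B \ O2)).card = (A \ O1).card + (B \ O2).card :=
    Finset.card_union_of_disjoint d2
  have k1 : IsOddSet G (O1 ∪ O2) := by
    intro v hv
    rw [degIn_union G d1]
    rcases Finset.mem_union.1 hv with h | h
    · rw [degIn_full G (T := O2) (fun w hw => hAB v (hO1 h) w (hO2 hw))]
      exact (o1 v h).add_even c2
    · rw [degIn_full G (T := O1) (fun w hw => (hAB w (hO1 hw) v (hO2 h)).symm)]
      exact c1.add_odd (o2 v h)
  have k2 : IsOddSet G ((A \ O1) ∪ (B \ O2)) := by
    have f1 : Odd (A \ O1).card := by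
      rw [← s1] at hA
      exact (Nat.odd_add.1 hA).2 c1
    have f2 : Odd (B \ O2).card := by
      rw [← s2] at hB
      exact (Nat.odd_add.1 hB).2 c2
    intro v hv
    rw [degIn_union G d2]
    rcases Finset.mem_union.1 hv with h | h
    · rw [degIn_full G (T := B \ O2) (fun w hw => hAB v (Finset.sdiff_subset h) w
        (Finset.sdiff_subset hw))]
      exact (e1 v h).add_odd f2
    · rw [degIn_full G (T := A \ O1) (fun w hw => (hAB w (Finset.sdiff_subset hw) v
        (Finset.sdiff_subset h)).symm)]
      exact f1.add_even (e2 v h)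
  by_cases hle : (O1 ∪ O2).card ≤ ((A \ O1) ∪ (B \ O2)).card
  · exact ⟨_, Finset.union_subset_union Finset.sdiff_subset Finset.sdiff_subset, k2, by omega⟩
  · exact ⟨_, Finset.union_subset_union hO1 hO2, k1, by omega⟩

open Classical in
theorem exists_odd_subset {A : Finset V} (hA : A.Nonempty) :
    ∃ A' ⊆ A, Odd A'.card ∧ A.card ≤ A'.card + 1 := by
  rcases Nat.even_or_odd A.card with h | h
  · obtain ⟨a, ha⟩ := hA
    refine ⟨A.erase a, Finset.erase_subset _ _, ?_, ?_⟩
    · rw [Finset.card_erase_of_mem ha]
      have : 0 < A.card := Finset.card_pos.2 ⟨a, ha⟩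
      obtain ⟨k, hk⟩ := h
      exact ⟨k - 1, by omega⟩
    · rw [Finset.card_erase_of_mem ha]
      omega
  · exact ⟨A, subset_rfl, h, by omega⟩

open Classical in
/-- joins -/
theorem join_bound [Fintype V] (G : SimpleGraph V) (A B : Finset V)
    (hAB : ∀ u ∈ A, ∀ v ∈ B, G.Adj u v) (hA : A.Nonempty) (hB : B.Nonempty) :
    ∃ S ⊆ A ∪ B, IsOddSet G S ∧ A.card + B.card ≤ 2 * S.card + 2 := by
  obtain ⟨A', hA', oA, cA⟩ := exists_odd_subset hA
  obtain ⟨B', hB', oB, cB⟩ := exists_odd_subset hB
  obtain ⟨S, hS, o, c⟩ := join_odd G A' B' (fun u hu v hv => hAB u (hA' hu) v (hB' hv)) oA oB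
  exact ⟨S, hS.trans (Finset.union_subset_union hA' hB'), o, by omega⟩

/-- the four-point form of `P₄`-freeness -/
def FourPoint (G : SimpleGraph V) : Prop :=
  ∀ a b c d, G.Adj a b → G.Adj b c → G.Adj c d → ¬ G.Adj a c → ¬ G.Adj b d → G.Adj a d

theorem fourPoint_compl {G : SimpleGraph V} (h : FourPoint G) :
    ∀ a b c d, a ≠ b → b ≠ c → c ≠ d → a ≠ c → b ≠ d → a ≠ d →
      ¬ G.Adj a b → ¬ G.Adj b c → ¬ G.Adj c d → G.Adj a c → G.Adj b d → ¬ G.Adj a d := by
  intro a b c d _ _ _ _ _ _ h1 h2 h3 h4 h5 h6
  -- the path `c a d b`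
  exact h2 (h c a d b h4.symm h6 h5.symm h3 h1).symm

theorem isCograph_iff (G : SimpleGraph V) : IsCograph G ↔ FourPoint G := by
  constructor
  · intro h a b c d h1 h2 h3 h4 h5
    by_contra h6
    have nab := G.ne_of_adj h1
    have nbc := G.ne_of_adj h2
    have ncd := G.ne_of_adj h3
    have nac : a ≠ c := by
      rintro rfl
      exact h6 h3
    have nbd : b ≠ d := by
      rintro rfl
      exact h6 h1
    have nad : a ≠ d := by
      rintro rfl
      exact h4 h3.symm
    refine h.elim ⟨⟨![a, b, c, d], ?_⟩, ?_⟩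
    · intro i j hij
      fin_cases i <;> fin_cases j <;> first | rfl | (exfalso; simp at hij; tauto)
    · intro i j
      have e1 := h1.symm
      have e2 := h2.symm
      have e3 := h3.symm
      have f4 : ¬ G.Adj c a := fun h => h4 h.symm
      have f5 : ¬ G.Adj d b := fun h => h5 h.symm
      have f6 : ¬ G.Adj d a := fun h => h6 h.symm
      fin_cases i <;> fin_cases j <;> simp [SimpleGraph.pathGraph_adj, *]
  · intro h
    refine ⟨fun f => ?_⟩
    have hadj : ∀ i j : Fin 4, G.Adj (f i) (f j) ↔ (SimpleGraph.pathGraph 4).Adj i j :=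
      fun i j => f.map_adj_iff
    have h1 : G.Adj (f 0) (f 1) := by rw [hadj]; simp [SimpleGraph.pathGraph_adj]
    have h2 : G.Adj (f 1) (f 2) := by rw [hadj]; simp [SimpleGraph.pathGraph_adj]
    have h3 : G.Adj (f 2) (f 3) := by rw [hadj]; simp [SimpleGraph.pathGraph_adj]
    have h4 : ¬ G.Adj (f 0) (f 2) := by rw [hadj]; simp [SimpleGraph.pathGraph_adj]
    have h5 : ¬ G.Adj (f 1) (f 3) := by rw [hadj]; simp [SimpleGraph.pathGraph_adj]
    have h6 : ¬ G.Adj (f 0) (f 3) := by rw [hadj]; simp [SimpleGraph.pathGraph_adj]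
    exact h6 (h _ _ _ _ h1 h2 h3 h4 h5)

open Classical in
/-- Seinsche: a set of at least two vertices of a cograph splits into two parts with no edges or
with all edges between them -/
theorem split {G : SimpleGraph V} (h4 : FourPoint G) (W : Finset V) (hW : 2 ≤ W.card) :
    ∃ A B : Finset V, A.Nonempty ∧ B.Nonempty ∧ Disjoint A B ∧ A ∪ B = W ∧
      ((∀ u ∈ A, ∀ v ∈ B, ¬ G.Adj u v) ∨ (∀ u ∈ A, ∀ v ∈ B, G.Adj u v)) := by
  induction W using Finset.induction_on with
  | empty => simp at hW
  | @insert v W hv ih =>
    rw [Finset.card_insert_of_notMem hv] at hW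
    by_cases hcard : W.card = 1
    · obtain ⟨w, rfl⟩ := Finset.card_eq_one.1 hcard
      refine ⟨{v}, {w}, Finset.singleton_nonempty _, Finset.singleton_nonempty _, ?_, rfl, ?_⟩
      · simpa using hv
      · by_cases h : G.Adj v w
        · right; simp [h]
        · left; simp [h]
    obtain ⟨A, B, hA, hB, hAB, rfl, hE⟩ := ih (by omega)
    -- the key step, for a subset `D` of the new set
    have key : ∀ D : Finset V, D.Nonempty → D ⊆ A ∪ B → ((A ∪ B) \ D ∪ {v}).Nonempty →
        (∀ x ∈ D, ∀ y ∈ (A ∪ B) \ D ∪ {v}, ¬ G.Adj x y) →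
        ∃ A' B' : Finset V, A'.Nonempty ∧ B'.Nonempty ∧ Disjoint A' B' ∧
          A' ∪ B' = insert v (A ∪ B) ∧
          ((∀ u ∈ A', ∀ v ∈ B', ¬ G.Adj u v) ∨ (∀ u ∈ A', ∀ v ∈ B', G.Adj u v)) := by
      intro D hD hDs hne hno
      refine ⟨D, (A ∪ B) \ D ∪ {v}, hD, hne, ?_, ?_, Or.inl hno⟩
      · rw [Finset.disjoint_union_right]
        refine ⟨Finset.disjoint_sdiff, ?_⟩
        rw [Finset.disjoint_singleton_right]
        exact fun h => hv (hDs h)
      · rw [← Finset.union_assoc, Finset.union_sdiff_of_subset hDs, Finset.union_comm,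
          Finset.insert_eq]
    have key2 : ∀ D : Finset V, D.Nonempty → D ⊆ A ∪ B → ((A ∪ B) \ D ∪ {v}).Nonempty →
        (∀ x ∈ D, ∀ y ∈ (A ∪ B) \ D ∪ {v}, G.Adj x y) →
        ∃ A' B' : Finset V, A'.Nonempty ∧ B'.Nonempty ∧ Disjoint A' B' ∧
          A' ∪ B' = insert v (A ∪ B) ∧
          ((∀ u ∈ A', ∀ v ∈ B', ¬ G.Adj u v) ∨ (∀ u ∈ A', ∀ v ∈ B', G.Adj u v)) := by
      intro D hD hDs hne hno
      refine ⟨D, (A ∪ B) \ D ∪ {v}, hD, hne, ?_, ?_, Or.inr hno⟩
      · rw [Finset.disjoint_union_right]
        refine ⟨Finset.disjoint_sdiff, ?_⟩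
        rw [Finset.disjoint_singleton_right]
        exact fun h => hv (hDs h)
      · rw [← Finset.union_assoc, Finset.union_sdiff_of_subset hDs, Finset.union_comm,
          Finset.insert_eq]
    have hvA : v ∉ A := fun h => hv (Finset.mem_union_left _ h)
    have hvB : v ∉ B := fun h => hv (Finset.mem_union_right _ h)
    have hne1 : ∀ D : Finset V, ((A ∪ B) \ D ∪ {v}).Nonempty := fun D =>
      ⟨v, Finset.mem_union_right _ (Finset.mem_singleton_self v)⟩
    -- membership in the complement of a part
    have hcompl : ∀ (X Y : Finset V), Disjoint X Y → X ∪ Y = A ∪ B → ∀ (D : Finset V), D ⊆ X →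
        ∀ y ∈ (A ∪ B) \ D ∪ {v}, y = v ∨ y ∈ Y ∨ (y ∈ X ∧ y ∉ D) := by
      intro X Y _ hXYe D _ y hy
      rcases Finset.mem_union.1 hy with h | h
      · rw [Finset.mem_sdiff, ← hXYe, Finset.mem_union] at h
        rcases h.1 with h1 | h1
        · exact Or.inr (Or.inr ⟨h1, h.2⟩)
        · exact Or.inr (Or.inl h1)
      · exact Or.inl (Finset.mem_singleton.1 h)
    -- one side, no edges between the parts
    have side : ∀ (X Y : Finset V), X.Nonempty → Disjoint X Y → X ∪ Y = A ∪ B →
        (∀ x ∈ X, ∀ y ∈ Y, ¬ G.Adj x y) → (∃ z ∈ Y, G.Adj z v) →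
        (∃ x ∈ X, ¬ G.Adj x v) →
        ∃ A' B' : Finset V, A'.Nonempty ∧ B'.Nonempty ∧ Disjoint A' B' ∧
          A' ∪ B' = insert v (A ∪ B) ∧
          ((∀ u ∈ A', ∀ v ∈ B', ¬ G.Adj u v) ∨ (∀ u ∈ A', ∀ v ∈ B', G.Adj u v)) := by
      intro X Y _ hXY hXYe hno ⟨z, hz, hzv⟩ ⟨x, hx, hxv⟩
      have hXs : X ⊆ A ∪ B := hXYe ▸ Finset.subset_union_left
      refine key (X.filter (fun x => ¬ G.Adj x v)) ⟨x, Finset.mem_filter.2 ⟨hx, hxv⟩⟩
        ((Finset.filter_subset _ _).trans hXs) (hne1 _) ?_
      intro a ha y hy
      rw [Finset.mem_filter] at ha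
      rcases hcompl X Y hXY hXYe _ (Finset.filter_subset _ _) y hy with h | h | ⟨h, h'⟩
      · rw [h]; exact ha.2
      · exact hno a ha.1 y h
      · intro hay
        have hyv : G.Adj y v := by
          by_contra hcon
          exact h' (Finset.mem_filter.2 ⟨h, hcon⟩)
        exact hno a ha.1 z hz (h4 a y v z hay hyv hzv.symm ha.2 (hno y h z hz))
    have side2 : ∀ (X Y : Finset V), X.Nonempty → Disjoint X Y → X ∪ Y = A ∪ B →
        (∀ x ∈ X, ∀ y ∈ Y, G.Adj x y) → (∃ z ∈ Y, ¬ G.Adj z v) →
        (∃ x ∈ X, G.Adj x v) →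
        ∃ A' B' : Finset V, A'.Nonempty ∧ B'.Nonempty ∧ Disjoint A' B' ∧
          A' ∪ B' = insert v (A ∪ B) ∧
          ((∀ u ∈ A', ∀ v ∈ B', ¬ G.Adj u v) ∨ (∀ u ∈ A', ∀ v ∈ B', G.Adj u v)) := by
      intro X Y _ hXY hXYe hall ⟨z, hz, hzv⟩ ⟨x, hx, hxv⟩
      have hXs : X ⊆ A ∪ B := hXYe ▸ Finset.subset_union_left
      have hYs : Y ⊆ A ∪ B := hXYe ▸ Finset.subset_union_right
      refine key2 (X.filter (fun x => G.Adj x v)) ⟨x, Finset.mem_filter.2 ⟨hx, hxv⟩⟩
        ((Finset.filter_subset _ _).trans hXs) (hne1 _) ?_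
      intro a ha y hy
      rw [Finset.mem_filter] at ha
      rcases hcompl X Y hXY hXYe _ (Finset.filter_subset _ _) y hy with h | h | ⟨h, h'⟩
      · rw [h]; exact ha.2
      · exact hall a ha.1 y h
      · by_contra hay
        have hyv : ¬ G.Adj y v := fun hcon => h' (Finset.mem_filter.2 ⟨h, hcon⟩)
        -- the path `v a z y`
        have n1 : G.Adj v a := ha.2.symm
        have n2 : G.Adj a z := hall a ha.1 z hz
        have n3 : G.Adj z y := (hall y h z hz).symm
        exact hyv (h4 v a z y n1 n2 n3 (fun h => hzv h.symm) hay).symm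
    rcases hE with hno | hall
    · by_cases c1 : ∃ x ∈ A, G.Adj x v
      · by_cases c2 : ∃ x ∈ B, G.Adj x v
        · by_cases c3 : ∃ x ∈ A, ¬ G.Adj x v
          · exact side A B hA hAB rfl hno c2 c3
          by_cases c4 : ∃ x ∈ B, ¬ G.Adj x v
          · exact side B A hB hAB.symm (Finset.union_comm _ _)
              (fun x hx y hy h => hno y hy x hx h.symm) c1 c4
          push Not at c3 c4
          refine key2 (A ∪ B) (hA.mono Finset.subset_union_left) subset_rfl (hne1 _) ?_
          intro x hx y hy
          rw [Finset.sdiff_self, Finset.empty_union, Finset.mem_singleton] at hy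
          rw [hy]
          rcases Finset.mem_union.1 hx with h | h
          · exact c3 x h
          · exact c4 x h
        · push Not at c2
          refine key B hB Finset.subset_union_right (hne1 _) ?_
          intro x hx y hy
          rcases hcompl B A hAB.symm (Finset.union_comm _ _) B subset_rfl y hy with h | h | h
          · rw [h]; exact c2 x hx
          · exact fun hxy => hno y h x hx hxy.symm
          · exact absurd h.1 h.2
      · push Not at c1
        refine key A hA Finset.subset_union_left (hne1 _) ?_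
        intro x hx y hy
        rcases hcompl A B hAB rfl A subset_rfl y hy with h | h | h
        · rw [h]; exact c1 x hx
        · exact hno x hx y h
        · exact absurd h.1 h.2
    · by_cases c1 : ∃ x ∈ A, ¬ G.Adj x v
      · by_cases c2 : ∃ x ∈ B, ¬ G.Adj x v
        · by_cases c3 : ∃ x ∈ A, G.Adj x v
          · exact side2 A B hA hAB rfl hall c2 c3
          by_cases c4 : ∃ x ∈ B, G.Adj x v
          · exact side2 B A hB hAB.symm (Finset.union_comm _ _)
              (fun x hx y hy => (hall y hy x hx).symm) c1 c4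
          push Not at c3 c4
          refine key (A ∪ B) (hA.mono Finset.subset_union_left) subset_rfl (hne1 _) ?_
          intro x hx y hy
          rw [Finset.sdiff_self, Finset.empty_union, Finset.mem_singleton] at hy
          rw [hy]
          rcases Finset.mem_union.1 hx with h | h
          · exact c3 x h
          · exact c4 x h
        · push Not at c2
          refine key2 B hB Finset.subset_union_right (hne1 _) ?_
          intro x hx y hy
          rcases hcompl B A hAB.symm (Finset.union_comm _ _) B subset_rfl y hy with h | h | h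
          · rw [h]; exact c2 x hx
          · exact (hall y h x hx).symm
          · exact absurd h.1 h.2
      · push Not at c1
        refine key2 A hA Finset.subset_union_left (hne1 _) ?_
        intro x hx y hy
        rcases hcompl A B hAB rfl A subset_rfl y hy with h | h | h
        · rw [h]; exact c1 x hx
        · exact hall x hx y h
        · exact absurd h.1 h.2

open Classical in
/-- the lower bound -/
theorem lower [Fintype V] {G : SimpleGraph V} (h4 : FourPoint G) :
    ∀ (n : ℕ) (W : Finset V), W.card = n → (∀ v ∈ W, ∃ w ∈ W, G.Adj v w) →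
      ∃ S ⊆ W, IsOddSet G S ∧ W.card ≤ 3 * S.card := by
  intro n
  induction n using Nat.strong_induction_on with
  | _ n ih =>
    intro W hn hW
    rcases Finset.eq_empty_or_nonempty W with h0 | ⟨v, hv⟩
    · subst h0
      exact ⟨∅, subset_rfl, fun v hv => absurd hv (Finset.notMem_empty v), by simp⟩
    obtain ⟨w, hw, hvw⟩ := hW v hv
    have hne : v ≠ w := G.ne_of_adj hvw
    have hcard : 2 ≤ W.card := by
      have : ({v, w} : Finset V) ⊆ W := by
        intro x hx
        rw [Finset.mem_insert, Finset.mem_singleton] at hx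
        rcases hx with rfl | rfl <;> assumption
      have h2 := Finset.card_le_card this
      rwa [Finset.card_pair hne] at h2
    obtain ⟨A, B, hA, hB, hAB, hU, hE⟩ := split h4 W hcard
    have hc : A.card + B.card = W.card := by
      rw [← hU, Finset.card_union_of_disjoint hAB]
    have hAp := Finset.card_pos.2 hA
    have hBp := Finset.card_pos.2 hB
    rcases hE with hno | hall
    · -- disjoint union
      obtain ⟨S, hS, oS, cS⟩ := ih A.card (by omega) A rfl (by
        intro x hx
        obtain ⟨y, hy, hxy⟩ := hW x (hU ▸ Finset.mem_union_left _ hx)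
        rw [← hU] at hy
        rcases Finset.mem_union.1 hy with h | h
        · exact ⟨y, h, hxy⟩
        · exact absurd hxy (hno x hx y h))
      obtain ⟨T, hT, oT, cT⟩ := ih B.card (by omega) B rfl (by
        intro x hx
        obtain ⟨y, hy, hxy⟩ := hW x (hU ▸ Finset.mem_union_right _ hx)
        rw [← hU] at hy
        rcases Finset.mem_union.1 hy with h | h
        · exact absurd hxy.symm (hno y h x hx)
        · exact ⟨y, h, hxy⟩)
      have hST : Disjoint S T := hAB.mono hS hT
      refine ⟨S ∪ T, hU ▸ Finset.union_subset_union hS hT, ?_, ?_⟩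
      · intro x hx
        rw [degIn_union G hST]
        rcases Finset.mem_union.1 hx with h | h
        · rw [degIn_none G (T := T) (fun y hy => hno x (hS h) y (hT hy)), add_zero]
          exact oS x h
        · rw [degIn_none G (T := S) (fun y hy hxy => hno y (hS hy) x (hT h) hxy.symm), zero_add]
          exact oT x h
      · rw [Finset.card_union_of_disjoint hST]
        omega
    · by_cases h6 : W.card ≤ 6
      · refine ⟨{v, w}, ?_, ?_, ?_⟩
        · intro x hx
          rw [Finset.mem_insert, Finset.mem_singleton] at hx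
          rcases hx with rfl | rfl <;> assumption
        · intro x hx
          rw [Finset.mem_insert, Finset.mem_singleton] at hx
          have hodd : degIn G {v, w} x = 1 := by
            unfold degIn
            rcases hx with rfl | rfl
            · have : ({x, w} : Finset V).filter (fun y => G.Adj x y) = {w} := by
                ext y
                simp only [Finset.mem_filter, Finset.mem_insert, Finset.mem_singleton]
                constructor
                · rintro ⟨rfl | rfl, h⟩
                  · exact absurd h (G.irrefl)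
                  · rfl
                · rintro rfl
                  exact ⟨Or.inr rfl, hvw⟩
              rw [this, Finset.card_singleton]
            · have : ({v, x} : Finset V).filter (fun y => G.Adj x y) = {v} := by
                ext y
                simp only [Finset.mem_filter, Finset.mem_insert, Finset.mem_singleton]
                constructor
                · rintro ⟨rfl | rfl, h⟩
                  · rfl
                  · exact absurd h (G.irrefl)
                · rintro rfl
                  exact ⟨Or.inl rfl, hvw.symm⟩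
              rw [this, Finset.card_singleton]
          rw [hodd]
          exact odd_one
        · rw [Finset.card_pair hne]
          omega
      · obtain ⟨S, hS, oS, cS⟩ := join_bound G A B hall hA hB
        refine ⟨S, hU ▸ hS, oS, ?_⟩
        omega

end Pool.Agent.K4H56.CG
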