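import Pool.Agent.K4H56.CG.Lower

/-! The extremal cographs: disjoint unions of induced subgraphs of `K_{2,2,2}`. -/

set_option autoImplicit false

namespace Pool.Agent.K4H56.CG

open Finset

/-- The graph on `0, …, n-1` with `i ~ j` if `i ≡ j mod k` and `⌊i/k⌋ ≢ ⌊j/k⌋ mod 3`. -/
def ext (n k : ℕ) : SimpleGraph (Fin n) where
  Adj i j := i.1 % k = j.1 % k ∧ (i.1 / k) % 3 ≠ (j.1 / k) % 3
  symm := ⟨fun _ _ h => ⟨h.1.symm, h.2.symm⟩⟩
  loopless := ⟨fun _ h => h.2 rfl⟩

theorem ext_adj {n k : ℕ} {i j : Fin n} : (ext n k).Adj i j ↔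
    i.1 % k = j.1 % k ∧ (i.1 / k) % 3 ≠ (j.1 / k) % 3 := Iff.rfl

theorem ext_fourPoint (n k : ℕ) : FourPoint (ext n k) := by
  intro a b c d h1 h2 h3 h4 h5
  rw [ext_adj] at *
  refine ⟨h1.1.trans (h2.1.trans h3.1), fun h => ?_⟩
  have e1 : (a.1 / k) % 3 = (c.1 / k) % 3 := by
    by_contra hh
    exact h4 ⟨h1.1.trans h2.1, hh⟩
  exact h3.2 (e1.symm.trans h)

theorem ext_noIsolated {n : ℕ} (hn : 2 ≤ n) : NoIsolated (ext n ((n + 5) / 6)) := by
  set k := (n + 5) / 6 with hk
  have hk0 : 0 < k := by omega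
  have h2k : 2 * k ≤ n := by omega
  intro i
  by_cases h : i.1 < k
  · refine ⟨⟨i.1 + k, by omega⟩, ?_⟩
    rw [ext_adj]
    refine ⟨by simp, ?_⟩
    rw [Nat.div_eq_of_lt h, Nat.add_div_right _ hk0, Nat.div_eq_of_lt h]
    norm_num
  · obtain ⟨j, hj⟩ : ∃ j, i.1 = j + k := ⟨i.1 - k, by omega⟩
    refine ⟨⟨j, by omega⟩, ?_⟩
    rw [ext_adj, hj]
    refine ⟨by simp, ?_⟩
    rw [Nat.add_div_right _ hk0]
    change (j / k + 1) % 3 ≠ (j / k) % 3
    generalize j / k = x
    omega

open Classical in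
/-- an odd set has at most two vertices in each residue class -/
theorem class_le {n k : ℕ} (hk : 0 < k) (hn : n ≤ 6 * k) {S : Finset (Fin n)}
    (hS : IsOddSet (ext n k) S) (r : ℕ) : (S.filter (fun i => i.1 % k = r)).card ≤ 2 := by
  set T := S.filter (fun i => i.1 % k = r) with hT
  set c : ℕ → ℕ := fun t => (T.filter (fun i => (i.1 / k) % 3 = t)).card with hc
  have hc2 : ∀ t, t < 3 → c t ≤ 2 := by
    intro t ht
    have hinj : Set.InjOn (fun i : Fin n => i.1 / k)
        (T.filter (fun i => (i.1 / k) % 3 = t) : Finset (Fin n)) := by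
      intro i hi j hj hij
      rw [Finset.mem_coe, Finset.mem_filter, hT, Finset.mem_filter] at hi hj
      have h1 := Nat.div_add_mod i.1 k
      have h2 := Nat.div_add_mod j.1 k
      have h3 : i.1 / k = j.1 / k := hij
      apply Fin.ext
      rw [← h1, ← h2, h3, hi.1.2, hj.1.2]
    have h1 : c t = ((T.filter (fun i => (i.1 / k) % 3 = t)).image (fun i : Fin n => i.1 / k)).card :=
      (Finset.card_image_of_injOn hinj).symm
    have h2 : (T.filter (fun i => (i.1 / k) % 3 = t)).image (fun i : Fin n => i.1 / k) ⊆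
        {t, t + 3} := by
      intro x hx
      rw [Finset.mem_image] at hx
      obtain ⟨i, hi, rfl⟩ := hx
      rw [Finset.mem_filter] at hi
      have h3 : i.1 / k < 6 := by
        rw [Nat.div_lt_iff_lt_mul hk]
        exact lt_of_lt_of_le i.2 hn
      rw [Finset.mem_insert, Finset.mem_singleton]
      have h4 := hi.2
      generalize i.1 / k = x at h3 h4 ⊢
      omega
    rw [h1]
    exact (Finset.card_le_card h2).trans Finset.card_le_two
  have hcard : T.card = c 0 + c 1 + c 2 := by
    have h1 : T.card = ∑ t ∈ Finset.range 3, c t :=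
      Finset.card_eq_sum_card_fiberwise (fun i _ => by
        simp only [Finset.coe_range, Set.mem_Iio]
        exact Nat.mod_lt _ (by norm_num))
    rw [h1, Finset.sum_range_succ, Finset.sum_range_succ, Finset.sum_range_one]
  have hdeg : ∀ i ∈ T, degIn (ext n k) S i + c ((i.1 / k) % 3) = T.card := by
    intro i hi
    have hi' := hi
    rw [hT, Finset.mem_filter] at hi'
    have h1 : S.filter (fun j => (ext n k).Adj i j) =
        T.filter (fun j => ¬ (j.1 / k) % 3 = (i.1 / k) % 3) := by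
      ext j
      rw [hT, Finset.mem_filter, Finset.mem_filter, Finset.mem_filter, ext_adj, hi'.2]
      constructor
      · rintro ⟨a, b, c⟩
        exact ⟨⟨a, b.symm⟩, fun h => c h.symm⟩
      · rintro ⟨⟨a, b⟩, c⟩
        exact ⟨a, b.symm, fun h => c h.symm⟩
    unfold degIn
    rw [h1]
    change _ + (T.filter (fun j : Fin n => (j.1 / k) % 3 = (i.1 / k) % 3)).card = T.card
    have := Finset.card_filter_add_card_filter_not (s := T) (fun j : Fin n => (j.1 / k) % 3 = (i.1 / k) % 3)
    rw [add_comm]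
    exact this
  -- parity
  have hpar : ∀ t, t < 3 → 0 < c t → Odd (T.card - c t) := by
    intro t _ hpos
    obtain ⟨i, hi⟩ := Finset.card_pos.1 hpos
    rw [Finset.mem_filter] at hi
    have h1 := hdeg i hi.1
    rw [hi.2] at h1
    have hiS : i ∈ S := by
      have := hi.1
      rw [hT, Finset.mem_filter] at this
      exact this.1
    have h2 := hS i hiS
    have h3 : degIn (ext n k) S i = T.card - c t := by omega
    rwa [h3] at h2
  have a0 := hc2 0 (by norm_num)
  have a1 := hc2 1 (by norm_num)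
  have a2 := hc2 2 (by norm_num)
  have b0 := hpar 0 (by norm_num)
  have b1 := hpar 1 (by norm_num)
  have b2 := hpar 2 (by norm_num)
  rw [hcard] at b0 b1 b2 ⊢
  generalize c 0 = x at *
  generalize c 1 = y at *
  generalize c 2 = z at *
  clear hcard hdeg hpar hc2
  interval_cases x <;> interval_cases y <;> interval_cases z <;> simp_all (config := { decide := true })

open Classical in
theorem card_le {n k : ℕ} (hk : 0 < k) (hn : n ≤ 6 * k) {S : Finset (Fin n)}
    (hS : IsOddSet (ext n k) S) : S.card ≤ 2 * k := by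
  have h1 : S.card = ∑ r ∈ Finset.range k, (S.filter (fun i => i.1 % k = r)).card :=
    Finset.card_eq_sum_card_fiberwise (fun i _ => by
      simp only [Finset.coe_range, Set.mem_Iio]
      exact Nat.mod_lt _ hk)
  rw [h1]
  calc ∑ r ∈ Finset.range k, (S.filter (fun i => i.1 % k = r)).card
      ≤ ∑ _r ∈ Finset.range k, 2 := Finset.sum_le_sum fun r _ => class_le hk hn hS r
    _ = 2 * k := by rw [Finset.sum_const, Finset.card_range, smul_eq_mul, mul_comm]

theorem bddAbove_mos {V : Type*} [Fintype V] (G : SimpleGraph V) :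
    BddAbove {k : ℕ | ∃ S : Finset V, IsOddSet G S ∧ S.card = k} := by
  refine ⟨Fintype.card V, ?_⟩
  rintro k ⟨S, -, rfl⟩
  exact Finset.card_le_univ S

theorem nonempty_mos {V : Type*} (G : SimpleGraph V) :
    {k : ℕ | ∃ S : Finset V, IsOddSet G S ∧ S.card = k}.Nonempty :=
  ⟨0, ∅, fun v hv => absurd hv (Finset.notMem_empty v), Finset.card_empty⟩

theorem le_mos {V : Type*} [Fintype V] {G : SimpleGraph V} {S : Finset V} (h : IsOddSet G S) :
    S.card ≤ mos G := le_csSup (bddAbove_mos G) ⟨S, h, rfl⟩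

theorem mos_le {V : Type*} {G : SimpleGraph V} {b : ℕ}
    (h : ∀ S : Finset V, IsOddSet G S → S.card ≤ b) : mos G ≤ b := by
  refine csSup_le (nonempty_mos G) ?_
  rintro k ⟨S, hS, rfl⟩
  exact h S hS

/-- the lower bound for `mos` -/
theorem lower_mos {n : ℕ} {G : SimpleGraph (Fin n)} (h4 : FourPoint G) (h : NoIsolated G) :
    2 * ((n + 5) / 6) ≤ mos G := by
  obtain ⟨S, -, oS, cS⟩ := lower h4 n Finset.univ (by simp) (fun v _ => by
    obtain ⟨w, hw⟩ := h v
    exact ⟨w, Finset.mem_univ _, hw⟩)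
  rw [Finset.card_univ, Fintype.card_fin] at cS
  have h1 := even_card oS
  have h2 := le_mos oS
  obtain ⟨m, hm⟩ := h1
  omega

theorem upper_mos {n : ℕ} (hn : 2 ≤ n) : mos (ext n ((n + 5) / 6)) ≤ 2 * ((n + 5) / 6) :=
  mos_le fun _ hS => card_le (by omega) (by omega) hS

end Pool.Agent.K4H56.CG
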